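import Mathlib
import Pool.Agent.Work.MP_787500_nt.QV.Defs
import Pool.Agent.Work.MP_787500_nt.LB.Dim
import Pool.Agent.Work.MP_787500_nt.LB.Perp2
import Pool.Agent.Work.MP_787500_nt.GP.K3_Lam
import Pool.Agent.Work.MP_787500_nt.KR.CocN

/-!
The continuous cocycles whose restriction to the inertia group is a coboundary: they form a local condition that is
its own annihilator (topological side), transport under isomorphisms.
-/

set_option autoImplicit false
set_option linter.unusedSectionVars false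

namespace Pool.Agent.Work.MP_787500_nt.QU

open Matrix
open Pool.Agent.Work.MP_787500_nt.GP (OE bil bil_add_left bil_add_right bil_smul_left bil_smul_right Lat cupE)
open Pool.Agent.Work.MP_787500_nt.KR (FSys Sm1 IsChar ZV PerpV zV LocRep IsBig)
open Pool.Agent.Work.MP_787500_nt.PA (toE)
open Pool.Agent.Work.MP_787500_nt.LB (TameX fD)
open Pool.Agent.Work.MP_787500_nt.QV (LagV)

variable {E : Type*} [NormedField E] [NormedAlgebra ℚ_[2] E] {n : ℕ}

section basic

variable {D : Type*} [Group D] (S : FSys D)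

/-- the continuous cocycles whose restriction to `I` is a coboundary -/
def urV (I : Subgroup D) (A : D → Matrix (Fin n) (Fin n) E) : Submodule E (D → Fin n → E) where
  carrier := {x | ZV S A x ∧ ∃ v, ∀ d ∈ I, x d = A d *ᵥ v - v}
  add_mem' := by
    rintro x y ⟨h1, v, hv⟩ ⟨h2, w, hw⟩
    refine ⟨(zV S A).add_mem h1 h2, v + w, fun d hd => ?_⟩
    rw [Pi.add_apply, hv d hd, hw d hd, mulVec_add]
    abel
  zero_mem' := ⟨(zV S A).zero_mem, 0, fun d _ => by rw [mulVec_zero, sub_zero]; rfl⟩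
  smul_mem' := by
    rintro c x ⟨h1, v, hv⟩
    refine ⟨(zV S A).smul_mem c h1, c • v, fun d hd => ?_⟩
    rw [Pi.smul_apply, hv d hd, mulVec_smul, smul_sub]

variable {S}

theorem mem_urV {I : Subgroup D} {A : D → Matrix (Fin n) (Fin n) E} {x : D → Fin n → E} :
    x ∈ urV S I A ↔ ZV S A x ∧ ∃ v, ∀ d ∈ I, x d = A d *ᵥ v - v := Iff.rfl

theorem lat_det {b : Matrix (Fin n) (Fin n) E} {l : OE E} {t : E →ₗ[ℚ_[2]] ℚ_[2]}
    {T : Submodule (OE E) (Fin n → E)} (h : Lat b l t T) : b.det ≠ 0 := by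
  intro h0
  obtain ⟨v, hv, hv0⟩ := Matrix.exists_mulVec_eq_zero_iff.2 h0
  have h1 : ∀ (c : E) (y : Fin n → E), bil b (c • v) y = 0 := by
    intro c y
    unfold bil
    rw [dotProduct_mulVec, ← mulVec_transpose, h.symm, mulVec_smul, hv0, smul_zero,
      zero_dotProduct]
  have h2 : ∀ c : E, c • v ∈ T := fun c => (h.dual _).2 fun y _ => by
    rw [h1, norm_zero]
    exact zero_le_one
  obtain ⟨R, hR⟩ := h.bdd
  have hl0 : 0 < ‖(l : E)‖ := norm_pos_iff.2 h.lne
  have hv1 : 0 < ‖v‖ := norm_pos_iff.2 hv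
  obtain ⟨k, hk⟩ := pow_unbounded_of_one_lt (R / ‖v‖) (one_lt_inv_iff₀.2 ⟨hl0, h.llt⟩)
  have h3 := hR _ (h2 (((l : E)⁻¹) ^ k))
  rw [norm_smul, norm_pow, norm_inv] at h3
  rw [div_lt_iff₀ hv1] at hk
  linarith

/-- continuity and powers -/
theorem rep_close {A : D → Matrix (Fin n) (Fin n) E}
    (hsm : ∀ ε : ℝ, 0 < ε → ∃ W, S.mem W ∧ ∀ w ∈ W, ∀ x : Fin n → E, ‖A w *ᵥ x - x‖ ≤ ε * ‖x‖)
    {ε : ℝ} (hε : 0 < ε) :
    ∃ W, S.mem W ∧ ∀ w ∈ W, ∀ i j, ‖A w i j - (1 : Matrix (Fin n) (Fin n) E) i j‖ ≤ ε := by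
  obtain ⟨W, hW, h1⟩ := hsm ε hε
  refine ⟨W, hW, fun w hw i j => ?_⟩
  have h2 := h1 w hw (Pi.single j 1)
  have h3 : ‖(Pi.single j 1 : Fin n → E)‖ ≤ 1 := by
    rw [pi_norm_le_iff_of_nonneg zero_le_one]
    intro k
    by_cases hk : k = j
    · rw [hk, Pi.single_eq_same, norm_one]
    · rw [Pi.single_eq_of_ne hk, norm_zero]
      exact zero_le_one
  have h4 : A w i j - (1 : Matrix (Fin n) (Fin n) E) i j =
      (A w *ᵥ (Pi.single j 1 : Fin n → E) - (Pi.single j 1 : Fin n → E)) i := by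
    rw [Pi.sub_apply, mulVec_single_one, Matrix.one_apply, Pi.single_apply]
    rfl
  rw [h4]
  refine (norm_le_pi_norm _ i).trans (h2.trans ?_)
  calc ε * ‖(Pi.single j 1 : Fin n → E)‖ ≤ ε * 1 := mul_le_mul_of_nonneg_left h3 hε.le
    _ = ε := mul_one ε

end basic

section top

variable [FiniteDimensional ℚ_[2] E]
variable {D : Type*} [Group D] [TopologicalSpace D] [IsTopologicalGroup D] [CompactSpace D]
  {S : FSys D} {N : Subgroup D} {χ a : D → ℤ_[2]} {σ τ : D} {l : ℕ} {I : Subgroup D}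
  {A : D → Matrix (Fin n) (Fin n) E}

theorem proRep_of (hS : IsBig N ∅ S) (h1 : A 1 = 1) (hm : ∀ s t, A (s * t) = A s * A t)
    (hsm : ∀ ε : ℝ, 0 < ε → ∃ W, S.mem W ∧ ∀ w ∈ W, ∀ x : Fin n → E, ‖A w *ᵥ x - x‖ ≤ ε * ‖x‖) :
    KR.ProRep N A where
  one := h1
  mul := hm
  cont := by
    refine continuous_matrix fun i j => ?_
    rw [Metric.continuous_iff']
    intro g ε hε
    obtain ⟨C, hC0, hC⟩ : ∃ C : ℝ, 0 < C ∧ ∑ k, ‖A g i k‖ ≤ C :=
      ⟨∑ k, ‖A g i k‖ + 1, by positivity, by linarith⟩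
    obtain ⟨W, hW, hclose⟩ := rep_close hsm (ε := ε / 2 / C) (by positivity)
    have hWo := ((hS W).1 hW).2.1
    have h2 : (fun x : D => g * x) '' (W : Set D) ∈ nhds g :=
      (isOpenMap_mul_left g _ hWo).mem_nhds ⟨1, W.one_mem, mul_one g⟩
    filter_upwards [h2]
    rintro _ ⟨w, hw, rfl⟩
    have e : A (g * w) i j - A g i j = ∑ k, A g i k * (A w k j - (1 : Matrix (Fin n) (Fin n) E) k j) := by
      have e1 : A g = A g * 1 := (mul_one _).symm
      conv_lhs => rw [hm, e1, Matrix.mul_assoc, one_mul]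
      rw [Matrix.mul_apply, Matrix.mul_apply, ← Finset.sum_sub_distrib]
      exact Finset.sum_congr rfl fun k _ => by ring
    rw [dist_eq_norm, e]
    calc ‖∑ k, A g i k * (A w k j - (1 : Matrix (Fin n) (Fin n) E) k j)‖
        ≤ ∑ k, ‖A g i k * (A w k j - (1 : Matrix (Fin n) (Fin n) E) k j)‖ := norm_sum_le _ _
      _ ≤ ∑ k, ‖A g i k‖ * (ε / 2 / C) := Finset.sum_le_sum fun k _ => by
          rw [norm_mul]
          exact mul_le_mul_of_nonneg_left (hclose w hw k j) (norm_nonneg _)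
      _ = (∑ k, ‖A g i k‖) * (ε / 2 / C) := by rw [Finset.sum_mul]
      _ ≤ C * (ε / 2 / C) := mul_le_mul_of_nonneg_right hC (by positivity)
      _ = ε / 2 := by field_simp
      _ < ε := by linarith
  pro := by
    intro s hs
    refine tendsto_pi_nhds.2 fun i => tendsto_pi_nhds.2 fun j => ?_
    rw [Metric.tendsto_atTop]
    intro ε hε
    obtain ⟨W, hW, hclose⟩ := rep_close hsm (ε := ε / 2) (by positivity)
    obtain ⟨hWn, -, -, k, hk⟩ := (hS W).1 hW
    have h5 := Subgroup.pow_index_mem (W.subgroupOf N) ⟨s, hs⟩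
    rw [show (W.subgroupOf N).index = 2 ^ k from hk, Subgroup.mem_subgroupOf] at h5
    refine ⟨k, fun m hm => ?_⟩
    obtain ⟨r, rfl⟩ := Nat.exists_eq_add_of_le hm
    have h6 : s ^ 2 ^ (k + r) ∈ W := by
      rw [pow_add, pow_mul]
      exact W.pow_mem h5 _
    rw [dist_eq_norm]
    exact (hclose _ h6 i j).trans_lt (by linarith)

theorem zv_iff (hN : N.Normal) (hNo : IsOpen (N : Set D)) (hS : IsBig N ∅ S) (hA : KR.ProRep N A)
    {x : D → Fin n → E} : Parity.IsCocycle A x ↔ ZV S A x :=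
  ⟨fun h => (KR.big_coc (KR.base_of hN hNo) hS hA (fun _ h => h.elim)).1 ⟨h, fun _ h => h.elim⟩,
    fun h => ((KR.big_coc (KR.base_of hN hNo) hS hA (fun _ h => h.elim)).2 h).1⟩

theorem urV_eq (hN : N.Normal) (hNo : IsOpen (N : Set D)) (hS : IsBig N ∅ S) (hA : KR.ProRep N A) :
    urV S I A = fD I A := by
  ext x
  rw [mem_urV, LB.mem_fD, zv_iff hN hNo hS hA]

/-- the dimension -/
theorem finrank_urV (h : TameX χ a σ τ l I)
    (hbasis : ∀ O ∈ nhds (1 : D), ∃ U : Subgroup D, IsOpen (U : Set D) ∧ (U : Set D) ⊆ O)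
    (hN : N.Normal) (hNo : IsOpen (N : Set D)) (hS : IsBig N ∅ S) (hA : KR.ProRep N A) :
    FiniteDimensional E (urV S I A) ∧ Module.finrank E (urV S I A) = n := by
  obtain ⟨lam, hlam⟩ := GP.exists_lam
  rw [urV_eq hN hNo hS hA]
  exact LB.finrank_fD hA.one hA.mul hA.cont h hbasis hlam

/-- THE LOCAL CONDITION IS ITS OWN ANNIHILATOR. -/
theorem lagV_top (h : TameX χ a σ τ l I)
    (hbasis : ∀ O ∈ nhds (1 : D), ∃ U : Subgroup D, IsOpen (U : Set D) ∧ (U : Set D) ⊆ O)
    (hN : N.Normal) (hNo : IsOpen (N : Set D)) (hS : IsBig N ∅ S) (hχ : IsChar S χ)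
    {T : Submodule (OE E) (Fin n → E)} {Sm J : Matrix (Fin n) (Fin n) E}
    (hr : LocRep S χ T Sm A (fun g => J * A g * J)) (jj : J * J = 1) (hd : Sm.det ≠ 0) :
    LagV S χ Sm J A (urV S I A) := by
  have hA := proRep_of hS hr.one hr.mul hr.sm
  have hB := proRep_of hS hr.one' hr.mul' hr.sm'
  obtain ⟨lam, hlam⟩ := GP.exists_lam
  have hJJ : ∀ v : Fin n → E, J *ᵥ (J *ᵥ v) = v := fun v => by
    rw [mulVec_mulVec, jj, one_mulVec]
  have hJ0 : ∀ g v, (J * A g * J) *ᵥ (J *ᵥ v) = J *ᵥ (A g *ᵥ v) := fun g v => by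
    rw [← mulVec_mulVec, hJJ, ← mulVec_mulVec]
  have hJ1 : ∀ Y : D → Fin n → E, ZV S A Y → ZV S (fun g => J * A g * J) (fun g => J *ᵥ Y g) := by
    rintro Y hY
    refine (zv_iff hN hNo hS hB).1 ?_
    have h1 := (zv_iff hN hNo hS hA).2 hY
    refine ⟨continuous_const.matrix_mulVec h1.1, fun s t => ?_⟩
    beta_reduce
    rw [hY.2, mulVec_add, hJ0]
  refine ⟨fun X hX => hX.1, fun v => ⟨(zv_iff hN hNo hS hA).1 ⟨(hA.cont.matrix_mulVec
    continuous_const).sub continuous_const, fun s t => ?_⟩, v, fun d _ => rfl⟩, fun Y hY => ?_⟩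
  · beta_reduce
    rw [hA.mul, ← mulVec_mulVec, mulVec_sub]
    abel
  · have key := LB.perp_fD h hbasis hlam hN hNo hA hB hd (fun d x y => hr.dual d x y)
      (y := fun g => J *ᵥ Y g)
    rw [← urV_eq hN hNo hS hA, ← urV_eq hN hNo hS hB, KR.big_perp (L := urV S I A) hbasis hN hNo hS hχ hA hB
      (fun x hx => (zv_iff hN hNo hS hA).2 hx.1)] at key
    have e1 : (fun g => J *ᵥ Y g) ∈ urV S I (fun g => J * A g * J) ↔ Y ∈ urV S I A := by
      rw [mem_urV, mem_urV]
      constructor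
      · rintro ⟨-, v, hv⟩
        refine ⟨hY, J *ᵥ v, fun d hd => ?_⟩
        have h1 := congrArg (fun w => J *ᵥ w) (hv d hd)
        beta_reduce at h1
        rw [hJJ, mulVec_sub, ← mulVec_mulVec, ← mulVec_mulVec, hJJ] at h1
        exact h1
      · rintro ⟨-, v, hv⟩
        refine ⟨hJ1 Y hY, J *ᵥ v, fun d hd => ?_⟩
        beta_reduce
        rw [hJ0, hv d hd, mulVec_sub]
    rw [e1] at key
    rw [← key]
    constructor
    · rintro ⟨-, h2⟩ X hX
      have h3 := h2 X hX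
      have e2 : cupE (fun g => J * A g * J) Sm X (fun g => J *ᵥ Y g) =
          fun s u => bil Sm (X s) (J *ᵥ (A s *ᵥ Y u)) := by
        funext s u
        show bil Sm (X s) ((J * A s * J) *ᵥ (J *ᵥ Y u)) = _
        rw [hJ0]
      rwa [e2] at h3
    · intro h2
      refine ⟨hJ1 Y hY, fun X hX => ?_⟩
      have h3 := h2 X hX
      have e2 : cupE (fun g => J * A g * J) Sm X (fun g => J *ᵥ Y g) =
          fun s u => bil Sm (X s) (J *ᵥ (A s *ᵥ Y u)) := by
        funext s u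
        show bil Sm (X s) ((J * A s * J) *ᵥ (J *ᵥ Y u)) = _
        rw [hJ0]
      rw [e2]
      exact h3

end top

/-! ## Transport -/

section iso

variable {D D' : Type*} [Group D] [Group D'] {S : FSys D} {S' : FSys D'} {e : D ≃* D'}

theorem mem_symm (hS : ∀ W : Subgroup D', S.mem (W.comap e.toMonoidHom) ↔ S'.mem W)
    {W : Subgroup D} (hW : S.mem W) : S'.mem (W.comap e.symm.toMonoidHom) := by
  rw [← hS]
  have : (W.comap e.symm.toMonoidHom).comap e.toMonoidHom = W := by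
    ext x
    show e.symm (e x) ∈ W ↔ x ∈ W
    rw [e.symm_apply_apply]
  rwa [this]

theorem n1_iso (hS : ∀ W : Subgroup D', S.mem (W.comap e.toMonoidHom) ↔ S'.mem W)
    {X : Type*} [NormedAddCommGroup X] {z : D' → X} :
    KP.N1 S (fun g => z (e g)) ↔ KP.N1 S' z := by
  constructor
  · intro h ε hε
    obtain ⟨W, hW, h1⟩ := h ε hε
    refine ⟨_, mem_symm hS hW, fun g w hw => ?_⟩
    have h2 := h1 (e.symm g) (e.symm w) hw
    beta_reduce at h2
    rwa [map_mul, e.apply_symm_apply, e.apply_symm_apply] at h2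
  · intro h ε hε
    obtain ⟨W, hW, h1⟩ := h ε hε
    refine ⟨_, (hS W).2 hW, fun g w hw => ?_⟩
    beta_reduce
    rw [map_mul]
    exact h1 _ _ hw

theorem zv_iso (hS : ∀ W : Subgroup D', S.mem (W.comap e.toMonoidHom) ↔ S'.mem W)
    {A : D' → Matrix (Fin n) (Fin n) E} {x : D' → Fin n → E} :
    ZV S (fun g => A (e g)) (fun g => x (e g)) ↔ ZV S' A x := by
  refine and_congr (n1_iso hS) ⟨fun h s t => ?_, fun h s t => ?_⟩
  · have h1 := h (e.symm s) (e.symm t)
    beta_reduce at h1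
    rwa [map_mul, e.apply_symm_apply, e.apply_symm_apply] at h1
  · beta_reduce
    rw [map_mul]
    exact h _ _

theorem be_iso (hS : ∀ W : Subgroup D', S.mem (W.comap e.toMonoidHom) ↔ S'.mem W)
    {χ : D' → ℤ_[2]} {f : D' → D' → E} :
    KP.BE S (fun g => χ (e g)) (fun s t => f (e s) (e t)) ↔ KP.BE S' χ f := by
  constructor
  · rintro ⟨z, hz, h⟩
    refine ⟨fun g => z (e.symm g), ?_, ?_⟩
    · rw [← n1_iso hS]
      have : (fun g => z (e.symm (e g))) = z := funext fun g => by rw [e.symm_apply_apply]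
      rwa [this]
    · funext s t
      have h1 := congrFun (congrFun h (e.symm s)) (e.symm t)
      simp only [PA.dE, e.apply_symm_apply, ← map_mul] at h1
      exact h1
  · rintro ⟨z, hz, h⟩
    refine ⟨fun g => z (e g), (n1_iso hS).2 hz, ?_⟩
    funext s t
    have h1 := congrFun (congrFun h (e s)) (e t)
    simp only [PA.dE, ← map_mul] at h1 ⊢
    exact h1

theorem mem_urV_iso (hS : ∀ W : Subgroup D', S.mem (W.comap e.toMonoidHom) ↔ S'.mem W)
    {A : D' → Matrix (Fin n) (Fin n) E} {I : Subgroup D'} {x : D' → Fin n → E} :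
    (fun g => x (e g)) ∈ urV S (I.comap e.toMonoidHom) (fun g => A (e g)) ↔ x ∈ urV S' I A := by
  rw [mem_urV, mem_urV, zv_iso hS]
  refine and_congr Iff.rfl (exists_congr fun v => ⟨fun h d hd => ?_, fun h d hd => h _ hd⟩)
  have h1 := h (e.symm d) (by
    show e (e.symm d) ∈ I
    rwa [e.apply_symm_apply])
  beta_reduce at h1
  rwa [e.apply_symm_apply] at h1

theorem lagV_iso (hS : ∀ W : Subgroup D', S.mem (W.comap e.toMonoidHom) ↔ S'.mem W)
    {χ : D' → ℤ_[2]} {Sm J : Matrix (Fin n) (Fin n) E} {A : D' → Matrix (Fin n) (Fin n) E}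
    {I : Subgroup D'} (h : LagV S' χ Sm J A (urV S' I A)) :
    LagV S (fun g => χ (e g)) Sm J (fun g => A (e g))
      (urV S (I.comap e.toMonoidHom) (fun g => A (e g))) := by
  refine ⟨fun X hX => hX.1, fun v => (mem_urV_iso hS).2 (h.cob v), fun Y hY => ?_⟩
  have hY' : (fun g => (fun d => Y (e.symm d)) (e g)) = Y := funext fun g => by
    show Y (e.symm (e g)) = Y g
    rw [e.symm_apply_apply]
  have hZ : ZV S' A (fun d => Y (e.symm d)) := by
    rw [← zv_iso hS, hY']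
    exact hY
  have h1 := h.self _ hZ
  have h2 := mem_urV_iso hS (A := A) (I := I) (x := fun d => Y (e.symm d))
  rw [hY'] at h2
  rw [h2, h1]
  constructor
  · intro h3 X hX
    have hX' : (fun g => (fun d => X (e.symm d)) (e g)) = X := funext fun g => by
      show X (e.symm (e g)) = X g
      rw [e.symm_apply_apply]
    have h4 := h3 (fun d => X (e.symm d)) (by
      rw [← mem_urV_iso hS, hX']
      exact hX)
    rw [← be_iso hS] at h4
    simp only [e.symm_apply_apply] at h4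
    exact h4
  · intro h3 X hX
    have h4 := h3 (fun g => X (e g)) ((mem_urV_iso hS).2 hX)
    rw [← be_iso hS]
    simp only [e.symm_apply_apply]
    exact h4

theorem finrank_urV_iso (hS : ∀ W : Subgroup D', S.mem (W.comap e.toMonoidHom) ↔ S'.mem W)
    {A : D' → Matrix (Fin n) (Fin n) E} {I : Subgroup D'} :
    Nonempty (urV S (I.comap e.toMonoidHom) (fun g => A (e g)) ≃ₗ[E] urV S' I A) := by
  have key : ∀ X ∈ urV S (I.comap e.toMonoidHom) (fun g => A (e g)),
      (fun d => X (e.symm d)) ∈ urV S' I A := by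
    intro X hX
    rw [← mem_urV_iso hS]
    have h1 : (fun g => (fun d => X (e.symm d)) (e g)) = X := funext fun g => by
      show X (e.symm (e g)) = _
      rw [e.symm_apply_apply]
    rw [h1]
    exact hX
  let φ : urV S (I.comap e.toMonoidHom) (fun g => A (e g)) →ₗ[E] urV S' I A :=
    { toFun := fun X => ⟨fun d => (X : D → Fin n → E) (e.symm d), key X X.2⟩
      map_add' := fun X Y => rfl
      map_smul' := fun c X => rfl }
  refine ⟨LinearEquiv.ofBijective φ ⟨fun X Y h => ?_, fun X => ?_⟩⟩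
  · refine Subtype.ext (funext fun g => ?_)
    have h1 : (X : D → Fin n → E) (e.symm (e g)) = (Y : D → Fin n → E) (e.symm (e g)) :=
      congrFun (congrArg Subtype.val h) (e g)
    rwa [e.symm_apply_apply] at h1
  · refine ⟨⟨fun g => (X : D' → Fin n → E) (e g), (mem_urV_iso hS).2 X.2⟩, Subtype.ext ?_⟩
    funext d
    show (X : D' → Fin n → E) (e (e.symm d)) = _
    rw [e.apply_symm_apply]

theorem locRep_iso (hS : ∀ W : Subgroup D', S.mem (W.comap e.toMonoidHom) ↔ S'.mem W)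
    {χ : D → ℤ_[2]} {T : Submodule (OE E) (Fin n → E)} {b : Matrix (Fin n) (Fin n) E}
    {A B : D → Matrix (Fin n) (Fin n) E} (h : LocRep S χ T b A B) :
    LocRep S' (fun d => χ (e.symm d)) T b (fun d => A (e.symm d)) (fun d => B (e.symm d)) where
  one := by
    beta_reduce
    rw [map_one, h.one]
  mul := fun s t => by
    beta_reduce
    rw [map_mul, h.mul]
  one' := by
    beta_reduce
    rw [map_one, h.one']
  mul' := fun s t => by
    beta_reduce
    rw [map_mul, h.mul']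
  st := fun d => h.st _
  st' := fun d => h.st' _
  sm := fun ε hε => by
    obtain ⟨W, hW, h1⟩ := h.sm ε hε
    exact ⟨_, mem_symm hS hW, fun w hw => h1 _ hw⟩
  sm' := fun ε hε => by
    obtain ⟨W, hW, h1⟩ := h.sm' ε hε
    exact ⟨_, mem_symm hS hW, fun w hw => h1 _ hw⟩
  dual := fun d => h.dual _

end iso

/-! ## Places at which every cocycle is a coboundary -/

section all

variable {D : Type*} [Group D] {S : FSys D} {χ : D → ℤ_[2]} {A : D → Matrix (Fin n) (Fin n) E}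

/-- coboundaries are continuous cocycles -/
theorem zv_cob [FiniteDimensional ℚ_[2] E] (hA : KR.SmallRep S A) (v : Fin n → E) :
    ZV S A (fun d => A d *ᵥ v - v) := by
  obtain ⟨C, hC0, hC⟩ := KR.rep_bdd hA
  constructor
  · intro ε hε
    obtain ⟨W, hW, hsm⟩ := hA.sm (ε / (C * (‖v‖ + 1))) (by positivity)
    refine ⟨W, hW, fun g w hw => ?_⟩
    have e : (fun d => A d *ᵥ v - v) (g * w) - (fun d => A d *ᵥ v - v) g =
        A g *ᵥ (A w *ᵥ v - v) := by
      simp only
      rw [mulVec_sub, mulVec_mulVec, ← hA.mul]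
      abel
    rw [e]
    refine ((hC g _).trans (mul_le_mul_of_nonneg_left (hsm w hw v) hC0.le)).trans_lt ?_
    have h4 : 0 ≤ ‖v‖ := norm_nonneg v
    have e2 : C * (ε / (C * (‖v‖ + 1)) * ‖v‖) = ε * (‖v‖ / (‖v‖ + 1)) := by
      field_simp
    rw [e2]
    have h5 : ‖v‖ / (‖v‖ + 1) < 1 := by rw [div_lt_one (by positivity)]; linarith
    nlinarith
  · intro s t
    simp only
    rw [hA.mul, mulVec_sub, mulVec_mulVec]
    abel

/-- all continuous cocycles -/
theorem lagV_all {T : Submodule (OE E) (Fin n → E)} {Sm J : Matrix (Fin n) (Fin n) E}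
    (hr : LocRep S χ T Sm A (fun g => J * A g * J)) (jj : J * J = 1)
    (hall : ∀ X, ZV S A X → ∃ v, X = fun d => A d *ᵥ v - v)
    (hcob : ∀ v, ZV S A (fun d => A d *ᵥ v - v)) : LagV S χ Sm J A (zV S A) where
  coc := fun X hX => hX
  cob := hcob
  self := fun Y hY => by
    refine ⟨fun _ X hX => ?_, fun _ => hY⟩
    obtain ⟨v, rfl⟩ := hall X hX
    have hJJ : ∀ v : Fin n → E, J *ᵥ (J *ᵥ v) = v := fun v => by
      rw [mulVec_mulVec, jj, one_mulVec]
    have hJ0 : ∀ g v, (J * A g * J) *ᵥ (J *ᵥ v) = J *ᵥ (A g *ᵥ v) := fun g v => by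
      rw [← mulVec_mulVec, hJJ, ← mulVec_mulVec]
    refine ⟨fun t => bil Sm v (J *ᵥ Y t), ?_, ?_⟩
    · intro ε hε
      obtain ⟨C, hC0, hC⟩ : ∃ C : ℝ, 0 < C ∧ ∀ w : Fin n → E, ‖bil Sm v (J *ᵥ w)‖ ≤ C * ‖w‖ := by
        have hf : ∀ w : Fin n → E, bil Sm v (J *ᵥ w) = ∑ i, (v ᵥ* (Sm * J)) i * w i := fun w => by
          unfold bil
          rw [mulVec_mulVec, dotProduct_mulVec]
          rfl
        refine ⟨∑ i, ‖(v ᵥ* (Sm * J)) i‖ + 1, by positivity, fun w => ?_⟩
        rw [hf]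
        refine (norm_sum_le _ _).trans ?_
        calc ∑ i, ‖(v ᵥ* (Sm * J)) i * w i‖ ≤ ∑ i, ‖(v ᵥ* (Sm * J)) i‖ * ‖w‖ :=
              Finset.sum_le_sum fun i _ => by
                rw [norm_mul]
                exact mul_le_mul_of_nonneg_left (norm_le_pi_norm w i) (norm_nonneg _)
          _ = (∑ i, ‖(v ᵥ* (Sm * J)) i‖) * ‖w‖ := by rw [Finset.sum_mul]
          _ ≤ (∑ i, ‖(v ᵥ* (Sm * J)) i‖ + 1) * ‖w‖ :=
              mul_le_mul_of_nonneg_right (by linarith) (norm_nonneg _)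
      obtain ⟨W, hW, h1⟩ := hY.1 (ε / C) (by positivity)
      refine ⟨W, hW, fun g w hw => ?_⟩
      beta_reduce
      have e1 : bil Sm v (J *ᵥ Y (g * w)) - bil Sm v (J *ᵥ Y g) =
          bil Sm v (J *ᵥ (Y (g * w) - Y g)) := by
        rw [mulVec_sub, GP.bil_sub_right]
      rw [e1]
      refine (hC _).trans_lt ?_
      have h2 := h1 g w hw
      rwa [lt_div_iff₀' hC0] at h2
    · funext s t
      show bil Sm (A s *ᵥ v - v) (J *ᵥ (A s *ᵥ Y t)) = bil Sm v (J *ᵥ Y s) +
        toE E (χ s) * bil Sm v (J *ᵥ Y t) - bil Sm v (J *ᵥ Y (s * t))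
      have h1 := hr.dual s v (J *ᵥ Y t)
      beta_reduce at h1
      rw [hJ0] at h1
      rw [hY.2, mulVec_add, bil_add_right, ← h1, GP.bil_sub_left]
      ring

/-- groups with two elements: every cocycle is a coboundary -/
theorem all_of_two (h1 : A 1 = 1) {c : D} (hc : c * c = 1) (hall : ∀ d, d = 1 ∨ d = c)
    {X : D → Fin n → E} (hX : ∀ s t, X (s * t) = X s + A s *ᵥ X t) :
    ∃ v, X = fun d => A d *ᵥ v - v := by
  have hE := LB.charZero_E E
  have h0 : X 1 = 0 := by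
    have := hX 1 1
    rw [mul_one, h1, one_mulVec] at this
    exact left_eq_add.1 this
  have h2 := hX c c
  rw [hc, h0] at h2
  have h3 : A c *ᵥ X c = -X c := (neg_eq_of_add_eq_zero_right h2.symm).symm
  refine ⟨-((2 : E)⁻¹ • X c), funext fun d => ?_⟩
  rcases hall d with rfl | rfl
  · rw [h0, h1, one_mulVec, sub_self]
  · rw [mulVec_neg, mulVec_smul, h3, smul_neg, neg_neg, sub_neg_eq_add, ← add_smul]
    have : (2 : E)⁻¹ + 2⁻¹ = 1 := by
      have h4 : (2 : E) ≠ 0 := two_ne_zero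
      field_simp
      norm_num
    rw [this, one_smul]

end all

end Pool.Agent.Work.MP_787500_nt.QU
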