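import Mathlib
import Pool.Agent.Work.MP_787500_nt.QP.Pl
import Pool.Agent.Work.MP_787500_nt.KR.LD4
import Pool.Agent.Work.MP_787500_nt.HP.Main

/-!
# The arithmetic instance over the rational numbers

`Inst`: the duality over the rational numbers for infinity, 2 and all the odd primes of a finite set `T` that contains the prime
divisors of `D` (the primes of `T` can split, be inert or ramify in the quadratic field). `exists_inst`: existence. `Inst.locD`:
the local hypotheses at all places. `Inst.ram`, `Inst.inf`: the places `p ∣ D` and infinity. `Inst.split`, `Inst.inert`,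
`Inst.inr_le`: the quadratic character on the decomposition groups and on inertia.
-/

set_option autoImplicit false
set_option linter.unusedSectionVars false

namespace Pool.Agent.Work.MP_787500_nt.QU

open NumberField
open Pool.Agent.Work.MP_787500_nt.PA (homs)
open Pool.Agent.Work.MP_787500_nt.GP (A0 hf hf_zero hf_inj IsAct TameD tw)
open Pool.Agent.Work.MP_787500_nt.KR (FSys Z1 Z2 Sm1 Smooth two big Opn IsChar fullC fullQ fullK Coc Cob LocD
  two_fullC two_fullQ two_le_big)
open Pool.Agent.Work.MP_787500_nt.HP (IsQ Spl IsP cyQ stb emb inr Alg QDat fsys alg_closure emb_sq inr_neg)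
open Pool.Agent.Work.MP_787500_nt.GA (HQ SQ jQ iQ DatQ IsReal invR isReal_inf opn_fullC Inr)
open Pool.Agent.Work.MP_787500_nt.KS (iK ep ep_add ep_zero iK_cases iK_nc c_sq)
open Pool.Agent.Work.MP_787500_nt.RQ (LocF)
open Pool.Agent.Work.MP_787500_nt.QF (exists_conj_ne map_normal)
open Pool.Agent.Work.MP_787500_nt.QP (RamPl InfPl exists_ramL)

universe u v w

section real

variable {D : Type*} [Group D] {c : D} {SD : FSys D} {χ : D → ℤ_[2]}

/-- the local hypotheses at infinity -/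
theorem locD_real (h : IsReal c SD χ) : LocD.{w} SD χ (invR c) :=
  { GA.locH_real h with
    one := fun f hf' h0 => by
      have h1 : ∀ b, f 1 b = f 1 1 := fun b => by
        have h2 := hf'.2 1 1 b
        rw [one_mul, one_mul] at h2
        have e : ∀ x y : ZMod 2, x + y = y + y → x = y := by decide
        exact (e _ _ h2).symm
      have h2 : ∀ a, f a 1 = f 1 1 := fun a => by
        have h3 := hf'.2 a 1 1
        rw [mul_one, mul_one] at h3
        have e : ∀ x y : ZMod 2, y + y = x + y → x = y := by decide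
        exact (e _ _ h3).symm
      have h3 : f c c = f 1 1 := by
        have h4 : hf (f c c + f 1 1) = hf 0 := by
          rw [GP.hf_add, hf_zero]
          exact h0
        have h5 := hf_inj h4
        have e : ∀ x y : ZMod 2, x + y = 0 → x = y := by decide
        exact e _ _ h5
      classical
      refine ⟨fun d => if d = 1 then f 1 1 else 0, h.sm1 _, fun a b => ?_⟩
      by_cases h1c : c = 1
      · have ha : ∀ d : D, d = 1 := fun d => by
          rcases h.all d with h5 | h5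
          · exact h5
          · rw [h5, h1c]
        rw [ha a, ha b]
        simp only [mul_one, if_true]
        have e : ∀ x : ZMod 2, x = x + x + x := by decide
        exact e _
      · rcases h.all a with rfl | rfl <;> rcases h.all b with rfl | rfl
        · simp only [mul_one, if_true]
          have e : ∀ x : ZMod 2, x = x + x + x := by decide
          exact e _
        · rw [one_mul, h1]
          simp only [if_true, if_neg h1c, add_zero]
        · rw [mul_one, h2]
          simp only [if_true, if_neg h1c, add_zero, zero_add]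
        · rw [h.sq, h3]
          simp only [if_true, if_neg h1c, add_zero, zero_add]
    gens := ⟨{c}, fun H _ hX => by
      refine (Subgroup.eq_top_iff' H).2 fun d => ?_
      rcases h.all d with rfl | rfl
      · exact H.one_mem
      · exact hX _ (Finset.mem_singleton_self _)⟩
    ld := fun hp => GA.lDual_real h hp }

end real

variable {K : Type u} [Field K] [NumberField K] {D : ℕ} {s : K}
  {c : AlgebraicClosure K ≃+* AlgebraicClosure K} {κ : AbsGal K →* AbsGal K} {T : Finset ℕ}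
  {P : ℕ → Ideal (𝓞 (AlgebraicClosure K))} {N₀ : Subgroup (AbsGal K)}

/-- the system over the rational numbers -/
noncomputable abbrev SG (K : Type u) [Field K] [NumberField K] (T : Finset ℕ)
    (N₀ : Subgroup (AbsGal K)) : FSys (AlgebraicClosure K ≃+* AlgebraicClosure K) :=
  big (fullQ (AlgebraicClosure K) (T : Set ℕ)) (N₀.map (iK K))

/-- THE ARITHMETIC DATA OVER THE RATIONAL NUMBERS. -/
structure Inst (s : K) (c : AlgebraicClosure K ≃+* AlgebraicClosure K) (κ : AbsGal K →* AbsGal K)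
    (D : ℕ) (T : Finset ℕ) (P : ℕ → Ideal (𝓞 (AlgebraicClosure K))) (N₀ : Subgroup (AbsGal K))
    (iv ivF : ∀ w : Option T, (stb (HP.PP P w) → stb (HP.PP P w) → A0) → A0)
    (tr : (((AlgebraicClosure K ≃+* AlgebraicClosure K) → (AlgebraicClosure K ≃+* AlgebraicClosure K) →
      (AlgebraicClosure K ≃+* AlgebraicClosure K) → A0) ×
      (∀ i : Option (Option T), HQ c P i → HQ c P i → A0)) →+ A0) : Prop where
  hK : IsQ K D s
  hc : PA.IsConj s c
  hκ : ∀ (σ : AbsGal K) (x : AlgebraicClosure K), κ σ x = c (σ (c x))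
  hP : IsP T P
  hD : D.primeFactors ⊆ T
  mem : (fullK (K := K) T).mem N₀
  kN : ∀ g ∈ N₀, κ g ∈ N₀
  qdat : QDat c T P iv
  locF : ∀ w, LocF (stb (HP.PP P w)) (iv w) (ivF w)
  glob : QS.HQ.{v} (SG K T N₀) (SQ c P (N₀.map (iK K))) (jQ c P) cyQ (iQ c P ivF) tr
  gens : ∃ X : Finset (AlgebraicClosure K ≃+* AlgebraicClosure K),
    ∀ U : Subgroup (AlgebraicClosure K ≃+* AlgebraicClosure K),
      (∃ W, (SG K T N₀).mem W ∧ W ≤ U) → (∀ g ∈ X, g ∈ U) → U = ⊤

section ex

/-- the union with the prime divisors of `D` -/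
theorem union_D (hD : D.primeFactors ⊆ T) : T ∪ D.primeFactors = T := Finset.union_eq_left.2 hD

theorem opn_map (hK : IsQ K D s) (hc : PA.IsConj s c)
    (hκ : ∀ (σ : AbsGal K) (x : AlgebraicClosure K), κ σ x = c (σ (c x)))
    (hN : (fullK (K := K) T).mem N₀) : Opn (KS.sQ K T D) (N₀.map (iK K)) := by
  obtain ⟨W, hW, h4⟩ := KS.push hK hc hκ hN
  refine ⟨W, hW, fun w hw => ?_⟩
  obtain ⟨n, hn, rfl⟩ := h4 w hw
  exact ⟨n, hn, rfl⟩

theorem fullK_mono {T₀ : Finset ℕ} (h : T₀ ⊆ T) {W : Subgroup (AbsGal K)}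
    (hW : (fullK (K := K) T₀).mem W) : (fullK (K := K) T).mem W := by
  obtain ⟨h1, h2, h3, h4⟩ := ((GA.emdK (RingEquiv.refl (AlgebraicClosure K)) T₀).sys W).1 hW
  exact ((GA.emdK (RingEquiv.refl (AlgebraicClosure K)) T).sys W).2
    ⟨h1, h2, h3, fun Q hQ h2 hT => h4 Q hQ h2 fun l hl => hT l (h hl)⟩

/-- THE EXISTENCE of the arithmetic data over the rational numbers. -/
theorem exists_inst (hK : IsQ K D s) (hc : PA.IsConj s c)
    (hκ : ∀ (σ : AbsGal K) (x : AlgebraicClosure K), κ σ x = c (σ (c x))) {T₀ : Finset ℕ}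
    (hN : (fullK (K := K) T₀).mem N₀) (kN : ∀ g ∈ N₀, κ g ∈ N₀) :
    ∃ T₁ : Finset ℕ, (∀ l ∈ T₁, Spl D l) ∧
      ∀ T : Finset ℕ, T₀ ⊆ T → T₁ ⊆ T → D.primeFactors ⊆ T →
      ∀ P : ℕ → Ideal (𝓞 (AlgebraicClosure K)), IsP T P →
      ∃ (iv ivF : ∀ w : Option T, (stb (HP.PP P w) → stb (HP.PP P w) → A0) → A0),
        (∀ f, KR.Z2 (RQ.ufull (AlgebraicClosure K) (T : Set ℕ)) (tw cyQ) f →
          ∑ w, ivF w (RQ.rs (stb (HP.PP P w)) f) + (f c c + f 1 1) = 0) ∧
        ∃ tr, Inst.{u, v} s c κ D T P N₀ iv ivF tr := by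
  have halg := alg_closure K
  have hne := exists_conj_ne hK hc
  have hNn : N₀.Normal := (fullK (K := K) T₀).normal hN
  have hNQn : (N₀.map (iK K)).Normal := map_normal hK hc hκ hNn kN
  obtain ⟨C, hC⟩ := KR.exists_syl hNQn (opn_map hK hc hκ hN)
  have hfC : Finite ((AlgebraicClosure K ≃+* AlgebraicClosure K) ⧸ C) := KR.syl_finite hC
  have := Fintype.ofFinite ((AlgebraicClosure K ≃+* AlgebraicClosure K) ⧸ C)
  obtain ⟨T₁, h1, h2⟩ := GA.exists_datQ halg hc.sq hne hK (RingEquiv.refl (AlgebraicClosure K)) hC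
    (by
      rintro _ ⟨n, -, rfl⟩
      exact ⟨n, rfl⟩)
  refine ⟨T₁, h1, fun T hT0 hT1 hTD P hP => ?_⟩
  have hTne : T.Nonempty := by
    have : D.primeFactors.Nonempty := by
      rw [Nat.nonempty_primeFactors]
      have := hK.mod
      omega
    exact this.mono hTD
  obtain ⟨iv, ivF, hQ, hF, hrec⟩ := RQ.exists_qdatF halg hc.sq hne hTne hP
  have hDat := h2 T (Finset.union_subset hT0 hTD) hT1
    (fun p hp hd => hTD (Nat.mem_primeFactors.2 ⟨hp, hd, hK.sqf.ne_zero⟩)) P hP iv ivF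
    (fun w => hQ.loc w) hF hrec
  obtain ⟨tr, htr⟩ := KR.exists_tr hDat.glob
  exact ⟨iv, ivF, hrec, tr, hK, hc, hκ, hP, hTD, fullK_mono hT0 hN, kN, hQ, hF,
    QF.hq_datQ.{u, v} halg hc.sq hne hP (fun w => hQ.loc w) hF hDat htr,
    KR.exists_gens hDat.syl hDat.fin⟩

end ex

variable {iv ivF : ∀ w : Option T, (stb (HP.PP P w) → stb (HP.PP P w) → A0) → A0}
  {tr : (((AlgebraicClosure K ≃+* AlgebraicClosure K) → (AlgebraicClosure K ≃+* AlgebraicClosure K) →
      (AlgebraicClosure K ≃+* AlgebraicClosure K) → A0) ×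
      (∀ i : Option (Option T), HQ c P i → HQ c P i → A0)) →+ A0}

namespace Inst

theorem nor (I : Inst.{u, v} s c κ D T P N₀ iv ivF tr) : N₀.Normal := (fullK (K := K) T).normal I.mem

theorem norQ (I : Inst.{u, v} s c κ D T P N₀ iv ivF tr) : (N₀.map (iK K)).Normal :=
  map_normal I.hK I.hc I.hκ I.nor I.kN

theorem ne (I : Inst.{u, v} s c κ D T P N₀ iv ivF tr) : ∃ x, c x ≠ x := exists_conj_ne I.hK I.hc

theorem opn (I : Inst.{u, v} s c κ D T P N₀ iv ivF tr) :
    Opn (fullQ (AlgebraicClosure K) (T : Set ℕ)) (N₀.map (iK K)) := by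
  have h := opn_map I.hK I.hc I.hκ I.mem
  rw [KS.sQ, union_D I.hD] at h
  exact h

/-- the group `N₀` is a member of the system over the rational numbers -/
theorem memQ (I : Inst.{u, v} s c κ D T P N₀ iv ivF tr) : (SG K T N₀).mem (N₀.map (iK K)) := by
  obtain ⟨W, hW, h1⟩ := I.opn
  exact ⟨I.norQ, ⟨W, hW, h1⟩, 0, by rw [pow_zero, Subgroup.relIndex_self]⟩

/-- the two groups -/
theorem isTwo (I : Inst.{u, v} s c κ D T P N₀ iv ivF tr) : QS.Two (iK K) c κ where
  inj := HP.emb_inj _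
  cc := c_sq I.hc
  kap := GA.emb_kap I.hκ
  cases := fun σ => by
    rcases iK_cases I.hK I.hc σ with ⟨n, h⟩ | ⟨n, h⟩
    · exact Or.inl ⟨n, h.symm⟩
    · exact Or.inr ⟨n, h.symm⟩
  nc := iK_nc I.hK I.hc

theorem chi (g : AbsGal K) : cyQ (iK K g) = PA.cyc g := HP.cyQ_emb _ g

theorem chic (I : Inst.{u, v} s c κ D T P N₀ iv ivF tr) : cyQ c = -1 := HP.cyQ_conj I.hc.sq I.ne

/-- LOCAL HYPOTHESES AT ALL PLACES. -/
theorem locD (I : Inst.{u, v} s c κ D T P N₀ iv ivF tr) (i : Option (Option T)) :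
    LocD.{w} (SQ c P (N₀.map (iK K)) i) (fun d => cyQ (jQ c P i d)) (iQ c P ivF i) := by
  match i with
  | none => exact locD_real (isReal_inf I.hc.sq I.ne P (N₀.map (iK K)))
  | some w =>
    obtain ⟨α⟩ := GA.exists_ratEquiv (alg_closure K)
    have hn := I.norQ
    exact KR.locD_of (GA.locB_Q α (GA.PP_prime I.hP w) (GA.PP_ne I.hP w) (I.qdat.loc w) (I.locF w) _)
      inferInstance (opn_fullC I.opn _)

/-- the local system at an odd prime is a big system for an open subgroup -/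
theorem opnL (I : Inst.{u, v} s c κ D T P N₀ iv ivF tr) (w : Option T) :
    Opn (fullC (stb (HP.PP P w))) ((N₀.map (iK K)).subgroupOf (stb (HP.PP P w))) := opn_fullC I.opn _

/-! ## Comparison of the systems over `K` and over the rational numbers -/

/-- the members of the system over the rational numbers induce members of the system over `K` -/
theorem down {W : Subgroup (AlgebraicClosure K ≃+* AlgebraicClosure K)} (hW : (SG K T N₀).mem W) :
    (big (fullK (K := K) T) N₀).mem (W.comap (iK K)) := by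
  obtain ⟨hn, ⟨W₁, ⟨⟨⟨t, ht⟩, h2, h3⟩, h4⟩, h5⟩, h6⟩ := hW
  refine ⟨inferInstance, ⟨W₁.comap (iK K), ?_, Subgroup.comap_mono h5⟩,
    KR.comap_rel (iK K) W le_rfl h6⟩
  refine ((GA.emdK (RingEquiv.refl (AlgebraicClosure K)) T).sys _).2
    ⟨inferInstance, fun h0 => h3 ?_, ⟨t, fun g hg => ht _ hg⟩,
      fun Q hQ h2' hT g hg => h4 Q hQ h2' (fun l hl => hT l hl) hg⟩
  rw [Subgroup.index_comap] at h0
  exact Nat.eq_zero_of_zero_dvd (h0 ▸ Subgroup.relIndex_dvd_index_of_normal _ _)

/-- the members of the system over `K` contain members of the system over the rational numbers -/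
theorem up (I : Inst.{u, v} s c κ D T P N₀ iv ivF tr) {W : Subgroup (AbsGal K)}
    (hW : (big (fullK (K := K) T) N₀).mem W) :
    ∃ W', (SG K T N₀).mem W' ∧ ∀ σ ∈ W', ∃ g ∈ W, iK K g = σ := by
  have h := QF.up_big I.hK I.hc I.hκ I.kN hW
  rw [KS.sQ, union_D I.hD] at h
  exact h

/-- the members of the local systems at the places are induced by the global system -/
theorem jsm (I : Inst.{u, v} s c κ D T P N₀ iv ivF tr) (i : Option (Option T))
    (W : Subgroup (AlgebraicClosure K ≃+* AlgebraicClosure K)) (hW : (SG K T N₀).mem W) :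
    ∃ W', (SQ c P (N₀.map (iK K)) i).mem W' ∧ ∀ w ∈ W', jQ c P i w ∈ W :=
  GA.jsmQ c P (N₀.map (iK K)) i W hW

/-! ## The quadratic character -/

theorem eadd (I : Inst.{u, v} s c κ D T P N₀ iv ivF tr)
    (g h : AlgebraicClosure K ≃+* AlgebraicClosure K) :
    ep (iK K) (g * h) = ep (iK K) g + ep (iK K) h := ep_add I.hK I.hc I.hκ g h

/-- the quadratic character is smooth -/
theorem esm (I : Inst.{u, v} s c κ D T P N₀ iv ivF tr) : Sm1 (SG K T N₀) (ep (iK K)) := by
  refine ⟨_, I.memQ, fun g w hw => ?_⟩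
  obtain ⟨n, -, rfl⟩ := hw
  rw [I.eadd, KS.ep_ι, add_zero]

/-- the quadratic character on the subgroups -/
theorem ehoms (I : Inst.{u, v} s c κ D T P N₀ iv ivF tr)
    (C : Subgroup (AlgebraicClosure K ≃+* AlgebraicClosure K)) :
    (fun d : C => ep (iK K) (d : AlgebraicClosure K ≃+* AlgebraicClosure K)) ∈
      homs (two (fullC C)) (⊤ : Subgroup C) :=
  KS.ep_homs (T := ∅) ⟨I.hK, I.hc, I.hκ, fun _ h => absurd h (Finset.notMem_empty _),
    GA.isP_mono (Finset.union_subset (Finset.empty_subset _) I.hD) I.hP⟩ C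

theorem ehoms' (I : Inst.{u, v} s c κ D T P N₀ iv ivF tr)
    (C : Subgroup (AlgebraicClosure K ≃+* AlgebraicClosure K)) :
    (fun d : C => ep (iK K) (d : AlgebraicClosure K ≃+* AlgebraicClosure K)) ∈
      homs (fsys C) (⊤ : Subgroup C) := by
  rw [← two_fullC]
  exact I.ehoms C

theorem prime (I : Inst.{u, v} s c κ D T P N₀ iv ivF tr) (l : T) : (l : ℕ).Prime := I.hP.prime l l.2

theorem odd (I : Inst.{u, v} s c κ D T P N₀ iv ivF tr) (l : T) : (l : ℕ) ≠ 2 := I.hP.odd l l.2

theorem isPrime (I : Inst.{u, v} s c κ D T P N₀ iv ivF tr) (l : T) : (P l).IsPrime :=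
  I.hP.isPrime l (Or.inl l.2)

theorem natMem (I : Inst.{u, v} s c κ D T P N₀ iv ivF tr) (l : T) :
    ((l : ℕ) : 𝓞 (AlgebraicClosure K)) ∈ P l := I.hP.mem l (Or.inl l.2)

theorem isPrime2 (I : Inst.{u, v} s c κ D T P N₀ iv ivF tr) : (P 2).IsPrime :=
  I.hP.isPrime 2 (Or.inr rfl)

theorem two_mem (I : Inst.{u, v} s c κ D T P N₀ iv ivF tr) :
    (2 : 𝓞 (AlgebraicClosure K)) ∈ P 2 := by exact_mod_cast I.hP.mem 2 (Or.inr rfl)

theorem two_not (I : Inst.{u, v} s c κ D T P N₀ iv ivF tr) (l : T) :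
    (2 : 𝓞 (AlgebraicClosure K)) ∉ P l := KS.two_notMem (I.prime l) (I.odd l) (I.isPrime l) (I.natMem l)

/-- the three kinds of odd primes -/
theorem kinds (I : Inst.{u, v} s c κ D T P N₀ iv ivF tr) (l : T) :
    Spl D l ∨ (l : ℕ) ∣ D ∨ Inr D l := by
  by_cases h : (l : ℕ) ∣ D
  · exact Or.inr (Or.inl h)
  · by_cases h' : ∃ A : ℤ, ((l : ℕ) : ℤ) ∣ A ^ 2 + D
    · exact Or.inl ⟨I.prime l, I.odd l, h, h'⟩
    · exact Or.inr (Or.inr ⟨I.prime l, I.odd l, h, h'⟩)

/-- the decomposition group at 2 is contained in the group of `K` -/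
theorem le_two (I : Inst.{u, v} s c κ D T P N₀ iv ivF tr)
    (d : HQ c P (some (none : Option T))) : ∃ n : AbsGal K, iK K n = jQ c P (some none) d :=
  HP.stb_le (RingEquiv.refl (AlgebraicClosure K)) I.hK (Or.inl rfl) I.isPrime2
    (by exact_mod_cast I.two_mem) d.2

/-- the decomposition group at a prime number that splits is contained in the group of `K` -/
theorem le_spl (I : Inst.{u, v} s c κ D T P N₀ iv ivF tr) {l : T} (hl : Spl D l)
    (d : HQ c P (some (some l))) : ∃ n : AbsGal K, iK K n = jQ c P (some (some l)) d :=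
  HP.stb_le (RingEquiv.refl (AlgebraicClosure K)) I.hK (Or.inr hl) (I.isPrime l) (I.natMem l) d.2

/-- the inertia group at a prime number that does not divide `D` is contained in the group of `K` -/
theorem le_inr (I : Inst.{u, v} s c κ D T P N₀ iv ivF tr) {l : T} (hl : ¬ (l : ℕ) ∣ D)
    {g : AlgebraicClosure K ≃+* AlgebraicClosure K} (hg : g ∈ inr (P l)) :
    ∃ n : AbsGal K, iK K n = g := by
  have h1 : ∀ p : ℕ, p.Prime → p ∣ D → (p : 𝓞 (AlgebraicClosure K)) ∉ P l := fun p hp hpD hpP => by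
    apply hl
    rw [GA.prime_uniq (I.isPrime l) (I.prime l) hp (I.natMem l) hpP]
    exact hpD
  obtain ⟨σ, -, h⟩ := HP.inr_le (RingEquiv.refl (AlgebraicClosure K)) I.hK (I.isPrime l) (I.two_not l)
    h1 hg
  exact ⟨σ, h⟩

/-- the quadratic character at 2 -/
theorem e_two (I : Inst.{u, v} s c κ D T P N₀ iv ivF tr) (d : HQ c P (some (none : Option T))) :
    ep (iK K) (jQ c P (some none) d) = 0 := (ep_zero _).2 (I.le_two d)

/-- the quadratic character at a prime number that splits -/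
theorem e_spl (I : Inst.{u, v} s c κ D T P N₀ iv ivF tr) {l : T} (hl : Spl D l)
    (d : HQ c P (some (some l))) : ep (iK K) (jQ c P (some (some l)) d) = 0 :=
  (ep_zero _).2 (I.le_spl hl d)

/-- the quadratic character is unramified at the prime numbers that do not divide `D` -/
theorem e_inr (I : Inst.{u, v} s c κ D T P N₀ iv ivF tr) {l : T} (hl : ¬ (l : ℕ) ∣ D)
    {g : AlgebraicClosure K ≃+* AlgebraicClosure K} (hg : g ∈ inr (P l)) : ep (iK K) g = 0 :=
  (ep_zero _).2 (I.le_inr hl hg)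

/-- the quadratic character is not trivial at the inert prime numbers -/
theorem e_inert (I : Inst.{u, v} s c κ D T P N₀ iv ivF tr) {l : T} (hl : Inr D l) :
    ∃ d : HQ c P (some (some l)), ep (iK K) (jQ c P (some (some l)) d) = 1 := by
  obtain ⟨g, hg, hg'⟩ := GA.exists_swap (alg_closure K) I.hK (RingEquiv.refl (AlgebraicClosure K)) hl
    (I.isPrime l) (I.natMem l)
  exact ⟨⟨g, hg⟩, if_neg hg'⟩

/-- an element of inertia at a prime divisor of `D` that is not in the group of `K` -/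
theorem e_ram (I : Inst.{u, v} s c κ D T P N₀ iv ivF tr) {l : T} (hl : (l : ℕ) ∣ D) :
    ∃ g ∈ inr (P l), ep (iK K) g = 1 := by
  obtain ⟨a, u, σ, τ, hu, hτ, hττ, hTam, hinv⟩ := I.qdat.tame l
  refine ⟨τ, hτ, if_neg fun h1 => ?_⟩
  have h2 := (emb_sq (RingEquiv.refl (AlgebraicClosure K)) I.hK
    (τ : AlgebraicClosure K ≃+* AlgebraicClosure K)).1 h1
  have h3 := inr_neg (RingEquiv.refl (AlgebraicClosure K)) I.hK (I.prime l) hl (I.isPrime l)
    (I.natMem l) hτ hττ
  exact KS.s_ne I.hK (h2.symm.trans h3)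

/-- the elements `θ` at the prime divisors of `D` -/
theorem theta (I : Inst.{u, v} s c κ D T P N₀ iv ivF tr) {p : ℕ} (hp : p ∈ D.primeFactors) :
    ∃ θ : AbsGal K, iK K θ * c ∈ inr (P p) := by
  obtain ⟨g, hg, h1⟩ := I.e_ram (l := ⟨p, I.hD hp⟩) (Nat.dvd_of_mem_primeFactors hp)
  rcases iK_cases I.hK I.hc g with ⟨n, rfl⟩ | ⟨n, rfl⟩
  · rw [KS.ep_ι] at h1
    exact absurd h1 zero_ne_one
  · exact ⟨n, hg⟩

/-! ## The places that do not split -/

/-- THE PRIME DIVISORS OF `D`. -/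
theorem ram (I : Inst.{u, v} s c κ D T P N₀ iv ivF tr) {l : T} (hl : (l : ℕ) ∣ D) :
    RamPl (SQ c P (N₀.map (iK K)) (some (some l))) (jQ c P (some (some l))) (iQ c P ivF (some (some l)))
      cyQ (ep (iK K)) {d : HQ c P (some (some l)) |
        (d : AlgebraicClosure K ≃+* AlgebraicClosure K) ∈ inr (P l) ∧
        ∃ g, iK K g = (d : AlgebraicClosure K ≃+* AlgebraicClosure K)}
      ((inr (P l)).subgroupOf (stb (P l))) := by
  obtain ⟨a, u, σ, τ, hu, hτ, hττ, hTam, hinv⟩ := I.qdat.tame l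
  have hτn : ep (iK K) (τ : AlgebraicClosure K ≃+* AlgebraicClosure K) = 1 := by
    refine if_neg fun h1 => ?_
    have h2 := (emb_sq (RingEquiv.refl (AlgebraicClosure K)) I.hK
      (τ : AlgebraicClosure K ≃+* AlgebraicClosure K)).1 h1
    have h3 := inr_neg (RingEquiv.refl (AlgebraicClosure K)) I.hK (I.prime l) hl (I.isPrime l)
      (I.natMem l) hτ hττ
    exact KS.s_ne I.hK (h2.symm.trans h3)
  obtain ⟨φ, R⟩ := exists_ramL (alg_closure K) (I.prime l) (I.two_not l) (I.isPrime l) (I.natMem l) hTam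
    hτ (I.ehoms (stb (P l))) hτn
  refine ⟨⟨fullC (stb (P l)), (N₀.map (iK K)).subgroupOf (stb (P l)), a, σ, τ, l, φ, u, rfl, R, hu,
    fun f hf' => ?_⟩, fun d => ?_⟩
  · have hf2 : GP.Z2 (two (fullC (stb (P l)))) (tw fun d : stb (P l) =>
        cyQ (d : AlgebraicClosure K ≃+* AlgebraicClosure K)) f := hf'
    rw [KR.two_fullC] at hf2
    exact ((I.locF (some l)).ext f hf2).trans (hinv f)
  · rw [ep_zero]
    rfl

/-- THE PLACE AT INFINITY. -/
theorem inf (I : Inst.{u, v} s c κ D T P N₀ iv ivF tr) :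
    InfPl (SQ c P (N₀.map (iK K)) (none : Option (Option T))) (jQ c P none) (iQ c P ivF none) cyQ c
      (∅ : Set (HQ c P (none : Option (Option T)))) (⟨c, Subgroup.mem_zpowers c⟩ : Subgroup.zpowers c) := by
  have hc1 : (⟨c, Subgroup.mem_zpowers c⟩ : Subgroup.zpowers c) ≠ 1 := by
    intro h
    obtain ⟨x, hx⟩ := I.ne
    exact hx (congrArg (fun g : Subgroup.zpowers c =>
      (g : AlgebraicClosure K ≃+* AlgebraicClosure K) x) h)
  exact ⟨isReal_inf (T := T) I.hc.sq I.ne P (N₀.map (iK K)), hc1, rfl, rfl,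
    fun d hd => absurd hd (Set.notMem_empty d)⟩

/-- the elements of the group at infinity -/
theorem infty (I : Inst.{u, v} s c κ D T P N₀ iv ivF tr) (d : HQ c P (none : Option (Option T))) :
    d = 1 ∨ d = (⟨c, Subgroup.mem_zpowers c⟩ : Subgroup.zpowers c) := GA.zpowers_two I.hc.sq d

end Inst

/-! ## The choice of the primes -/

/-- There are primes over the prime numbers in `T` and 2, with given values on `A`. -/
theorem exists_P {Ω : Type u} [Field Ω] [CharZero Ω] (T : Finset ℕ)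
    (hT : ∀ l ∈ T, l.Prime ∧ l ≠ 2) (A : Set ℕ) (Q : ℕ → Ideal (𝓞 Ω))
    (hQ : ∀ l ∈ A, (Q l).IsPrime ∧ (l : 𝓞 Ω) ∈ Q l) :
    ∃ P : ℕ → Ideal (𝓞 Ω), IsP T P ∧ ∀ l ∈ A, P l = Q l := by
  classical
  have hR : ∀ p : ℕ, ∃ Q : Ideal (𝓞 Ω), p.Prime → Q.IsPrime ∧ (p : 𝓞 Ω) ∈ Q := by
    intro p
    by_cases hp : p.Prime
    · obtain ⟨Q, hQ⟩ := HP.prime_over_nat (Ω := Ω) hp
      exact ⟨Q, fun _ => hQ⟩
    · exact ⟨⊥, fun h => absurd h hp⟩
  choose R hR using hR
  have key : ∀ l : ℕ, l.Prime → (if l ∈ A then Q l else R l).IsPrime ∧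
      (l : 𝓞 Ω) ∈ (if l ∈ A then Q l else R l) := by
    intro l hl
    by_cases h : l ∈ A
    · rw [if_pos h]
      exact hQ l h
    · rw [if_neg h]
      exact hR l hl
  have hpr : ∀ l, l ∈ T ∨ l = 2 → l.Prime := by
    rintro l (h | rfl)
    · exact (hT l h).1
    · exact Nat.prime_two
  exact ⟨fun l => if l ∈ A then Q l else R l, ⟨fun l hl => (hT l hl).1, fun l hl => (hT l hl).2,
    fun l hl => (key l (hpr l hl)).1, fun l hl => (key l (hpr l hl)).2⟩, fun l hl => if_pos hl⟩

end Pool.Agent.Work.MP_787500_nt.QU
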