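import Mathlib
import Pool.Agent.Work.MP_787500_nt.QU.UrV
import Pool.Agent.Work.MP_787500_nt.QL.TameQ
import Pool.Agent.Work.MP_787500_nt.QF.Glob1
import Pool.Agent.Work.MP_787500_nt.KR.BigK

/-!
The local condition `urV` at the odd primes, over the rational numbers; the condition at infinity.
-/

set_option autoImplicit false
set_option linter.unusedSectionVars false

namespace Pool.Agent.Work.MP_787500_nt.QU

open Matrix NumberField
open Pool.Agent.Work.MP_787500_nt.GP (OE bil Lat stabD)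
open Pool.Agent.Work.MP_787500_nt.KR (FSys IsChar ZV zV LocRep IsBig fullC fullD big Opn)
open Pool.Agent.Work.MP_787500_nt.PA (toE cyc)
open Pool.Agent.Work.MP_787500_nt.LB (TameX fD)
open Pool.Agent.Work.MP_787500_nt.QV (LagV)
open Pool.Agent.Work.MP_787500_nt.HP

universe u v

variable {Ω : Type u} [Field Ω] [CharZero Ω] [IsAlgClosed Ω]

/-- the topological model of the decomposition group of an odd prime -/
theorem exists_model (halg : Alg Ω) {l : ℕ} (hl : l.Prime) (h2 : l ≠ 2) {Q : Ideal (𝓞 Ω)}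
    (hQ : Q.IsPrime) (hlQ : (l : 𝓞 Ω) ∈ Q) :
    ∃ (K : Type u) (_ : Field K) (_ : NumberField K) (C : Subgroup (AbsGal K)) (e : stb Q ≃* C),
      IsClosed (C : Set (AbsGal K)) ∧
      (∀ W : Subgroup C, (fullC (stb Q)).mem (W.comap e.toMonoidHom) ↔ (fullD C).mem W) ∧
      (∀ g : stb Q, cyc ((e g : C) : AbsGal K) = cyQ (g : Ω ≃+* Ω)) ∧
      ∃ (I : Subgroup C) (a : C → ℤ_[2]) (σ τ : C), I.comap e.toMonoidHom = (inr Q).subgroupOf (stb Q) ∧
        TameX (fun g : C => cyc (g : AbsGal K)) a σ τ l I := by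
  obtain ⟨q, hq, hq7, hsp⟩ := exists_q {l} (fun k hk => by
    rw [Finset.mem_singleton] at hk
    rw [hk]
    exact hl) (fun k hk => by
    rw [Finset.mem_singleton] at hk
    rw [hk]
    exact h2)
  obtain ⟨K, iF, iN, s, α, hK⟩ := exists_base halg hq hq7
  obtain ⟨-, -, hlq, A, hA⟩ := hsp l (Finset.mem_singleton_self l)
  have hKQ : IsQ K q s := ⟨hK.1, hK.2.1, hK.2.2.1.prime.squarefree, by
    have := hK.2.2.2
    omega⟩
  have hS : Spl q l := ⟨hl, h2, fun hd => hlq ((Nat.prime_dvd_prime_iff_eq hl hq).1 hd), A, hA⟩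
  obtain ⟨e, he⟩ := stb_equiv α hKQ (Or.inr hS) hQ hlQ
  obtain ⟨a, σ, τ, hX⟩ := LB.exists_tameX hKQ hS (pb_prime α hQ) ((pb_nat α l).2 hlQ)
  refine ⟨K, iF, iN, stabD (pb α Q), e, GP.stabD_closed (pb α Q), GA.fullC_iso α e he, fun g => ?_,
    ((pb α Q).inertia (AbsGal K)).subgroupOf (stabD (pb α Q)), a, σ, τ, ?_, hX⟩
  · rw [← cyQ_emb α, he]
  · ext g
    rw [Subgroup.mem_comap, Subgroup.mem_subgroupOf, Subgroup.mem_subgroupOf]
    show ((e g : stabD (pb α Q)) : AbsGal K) ∈ _ ↔ _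
    rw [← emb_inr α, he]

variable {E : Type*} [NormedField E] [NormedAlgebra ℚ_[2] E] [FiniteDimensional ℚ_[2] E] {n : ℕ}

/-- THE CONDITION AT AN ODD PRIME: self-annihilating and of dimension `n`. -/
theorem lagV_odd (halg : Alg Ω) {l : ℕ} (hl : l.Prime) (h2 : l ≠ 2) {Q : Ideal (𝓞 Ω)}
    (hQ : Q.IsPrime) (hlQ : (l : 𝓞 Ω) ∈ Q) {N : Subgroup (stb Q)} (hN : N.Normal)
    (hNo : Opn (fullC (stb Q)) N) {T : Submodule (OE E) (Fin n → E)}
    {Sm J : Matrix (Fin n) (Fin n) E} {A : stb Q → Matrix (Fin n) (Fin n) E}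
    (hr : LocRep (big (fullC (stb Q)) N) (fun d : stb Q => cyQ (d : Ω ≃+* Ω)) T Sm A
      (fun g => J * A g * J)) (jj : J * J = 1) (hd : Sm.det ≠ 0) :
    LagV (big (fullC (stb Q)) N) (fun d : stb Q => cyQ (d : Ω ≃+* Ω)) Sm J A
      (urV (big (fullC (stb Q)) N) ((inr Q).subgroupOf (stb Q)) A) ∧
    FiniteDimensional E (urV (big (fullC (stb Q)) N) ((inr Q).subgroupOf (stb Q)) A) ∧
    Module.finrank E (urV (big (fullC (stb Q)) N) ((inr Q).subgroupOf (stb Q)) A) = n := by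
  obtain ⟨K, iF, iN, C, e, hcl, hiso, hcc, I, a, σ, τ, hI, hX⟩ := exists_model halg hl h2 hQ hlQ
  have hc : CompactSpace C := isCompact_iff_compactSpace.1 hcl.isCompact
  obtain ⟨N', hN'⟩ : ∃ N' : Subgroup C, N' = N.comap e.symm.toMonoidHom := ⟨_, rfl⟩
  have hN'n : N'.Normal := by
    rw [hN']
    infer_instance
  have hNN : ∀ d, e d ∈ N' ↔ d ∈ N := fun d => by
    rw [hN']
    show e.symm (e d) ∈ N ↔ _
    rw [e.symm_apply_apply]
  have hS : ∀ W : Subgroup C, (big (fullC (stb Q)) N).mem (W.comap e.toMonoidHom) ↔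
      (big (fullD C) N').mem W := QF.big_iso e hiso hNN
  have hN'o : IsOpen (N' : Set C) := by
    obtain ⟨W, hW, hWN⟩ := hNo
    obtain ⟨-, -, U, hU, hUW⟩ := mem_symm hiso hW
    refine Subgroup.isOpen_mono (hUW.trans ?_) (hU.preimage continuous_subtype_val)
    rw [hN']
    exact Subgroup.comap_mono hWN
  have hBig : IsBig N' ∅ (big (fullD C) N') := by
    have h3 := KR.isBig_D (N'.map C.subtype) hcl
    have h4 : (N'.map C.subtype).subgroupOf C = N' :=
      Subgroup.comap_map_eq_self_of_injective C.subtype_injective N'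
    rwa [h4] at h3
  have hbasis := HP.basis_sub (D := C) (basis_K K)
  have hr' := locRep_iso hS hr
  have hcc' : (fun d : C => cyQ ((e.symm d : stb Q) : Ω ≃+* Ω)) = fun g : C => cyc (g : AbsGal K) := by
    funext d
    rw [← hcc, e.apply_symm_apply]
  rw [hcc'] at hr'
  have hch : IsChar (big (fullC (stb Q)) N) (fun d : stb Q => cyQ (d : Ω ≃+* Ω)) :=
    RQ.char_big (RQ.char_lfull (stb Q)) N
  have hch' : IsChar (big (fullD C) N') (fun g : C => cyc (g : AbsGal K)) := by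
    refine ⟨PA.isChar_cyc.one, fun g h => PA.isChar_cyc.mul _ _, fun n => ?_,
      fun g => PA.isChar_cyc.odd _⟩
    obtain ⟨W, hW, h1⟩ := hch.cont n
    refine ⟨_, mem_symm hS hW, fun g w hw => ?_⟩
    have h3 := h1 (e.symm g) (e.symm w) hw
    beta_reduce at h3
    rw [← map_mul, ← hcc, ← hcc, e.apply_symm_apply, e.apply_symm_apply] at h3
    exact h3
  have hL := lagV_top hX hbasis hN'n hN'o hBig hch' hr' jj hd
  have hF := finrank_urV (S := big (fullD C) N') hX hbasis hN'n hN'o hBig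
    (proRep_of hBig hr'.one hr'.mul hr'.sm)
  have h5 := lagV_iso hS hL
  obtain ⟨ψ⟩ := finrank_urV_iso hS (A := fun d => A (e.symm d)) (I := I)
  have e1 : (fun g : stb Q => (fun d : C => A (e.symm d)) (e g)) = A := funext fun g => by
    show A (e.symm (e g)) = A g
    rw [e.symm_apply_apply]
  have e2 : (fun g : stb Q => cyc ((e g : C) : AbsGal K)) = fun d : stb Q => cyQ (d : Ω ≃+* Ω) :=
    funext hcc
  rw [e1, hI] at h5 ψ
  rw [e2] at h5
  have := hF.1
  exact ⟨h5, LinearEquiv.finiteDimensional ψ.symm, by rw [ψ.finrank_eq, hF.2]⟩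

/-- THE CONDITION AT INFINITY. -/
theorem lagV_inf {c : Ω ≃+* Ω} (hc : ∀ x, c (c x) = x) {S : FSys (Subgroup.zpowers c)}
    {χ : Subgroup.zpowers c → ℤ_[2]} {T : Submodule (OE E) (Fin n → E)}
    {Sm J : Matrix (Fin n) (Fin n) E} {A : Subgroup.zpowers c → Matrix (Fin n) (Fin n) E}
    (hr : LocRep S χ T Sm A (fun g => J * A g * J)) (jj : J * J = 1) :
    LagV S χ Sm J A (zV S A) := by
  have hcc : c * c = 1 := by
    ext x
    exact hc x
  refine lagV_all hr jj (fun X hX => all_of_two (c := ⟨c, Subgroup.mem_zpowers c⟩) hr.one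
    (Subtype.ext hcc) ?_ hX.2) (zv_cob ⟨hr.one, hr.mul, hr.sm⟩)
  rintro ⟨d, m, rfl⟩
  rcases Int.even_or_odd m with ⟨k, hk⟩ | ⟨k, hk⟩
  · left
    apply Subtype.ext
    show c ^ m = 1
    rw [hk, _root_.zpow_add, ← (Commute.refl c).mul_zpow, hcc, _root_.one_zpow]
  · right
    apply Subtype.ext
    show c ^ m = c
    rw [hk, _root_.zpow_add, two_mul, _root_.zpow_add, ← (Commute.refl c).mul_zpow, hcc, _root_.one_zpow, one_mul,
      zpow_one]

end Pool.Agent.Work.MP_787500_nt.QU
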